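import Mathlib
import Pool.Agent.H.MP_78c6b8_an.A

namespace Pool.Agent.Results.MP_78c6b8_an.Contains

open Set Pool.Agent.H.MP_78c6b8_an

/-- `I` is the contour integral of `g` along `γ` restricted to `[a, b]` (limit of tagged sums) -/
def HasInt (γ : ℝ → ℂ) (a b : ℝ) (g : ℂ → ℂ) (I : ℂ) : Prop :=
  ∀ ε > 0, ∃ δ > 0, ∀ (n : ℕ) (t ξ : ℕ → ℝ), t 0 = a → t n = b →
    (∀ i < n, t i ≤ ξ i ∧ ξ i ≤ t (i + 1) ∧ t (i + 1) - t i < δ) →
    ‖∑ i ∈ Finset.range n, g (γ (ξ i)) * (γ (t (i + 1)) - γ (t i)) - I‖ < ε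

/-- admissible paths on `[a, b]` -/
def Admissible (γ : ℝ → ℂ) (a b : ℝ) : Prop :=
  a < b ∧ ContinuousOn γ (Icc a b) ∧ BoundedVariationOn γ (Icc a b) ∧
    ∀ c d, a ≤ c → c < d → d ≤ b → ∃ s ∈ Icc c d, ∃ t ∈ Icc c d, γ s ≠ γ t

/-- `g` is a derivative of `f` along every subpath of `γ` -/
def DerivAlong (γ : ℝ → ℂ) (a b : ℝ) (f g : ℂ → ℂ) : Prop :=
  ∀ c d, a ≤ c → c < d → d ≤ b → HasInt γ c d g (f (γ d) - f (γ c))

lemma est {Γ : ℝ → ℂ} {s s' ε : ℝ} {g : ℂ → ℂ} {I c : ℂ} (hs : s ≤ s') (hε : 0 ≤ ε)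
    (hV : BoundedVariationOn Γ (Icc s s')) (h : HasInt Γ s s' g I)
    (hg : ∀ x ∈ Icc s s', ‖g (Γ x) - c‖ ≤ ε) :
    ‖I - c * (Γ s' - Γ s)‖ ≤ ε * (eVariationOn Γ (Icc s s')).toReal := by
  refine le_of_forall_pos_le_add fun e he => ?_
  obtain ⟨δ, hδ, h⟩ := h e he
  obtain ⟨N, p, hp, p0, pN, pm, pd, -⟩ := part hs hδ
  have h1 := h N p p p0 pN fun i _ => ⟨le_rfl, hp i.le_succ, pd i⟩
  have h2 : ∑ i ∈ Finset.range N, ‖Γ (p (i + 1)) - Γ (p i)‖ ≤ (eVariationOn Γ (Icc s s')).toReal := by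
    have := ENNReal.toReal_mono hV (eVariationOn.sum_le (n := N) hp pm)
    rw [ENNReal.toReal_sum fun _ _ => edist_ne_top _ _] at this
    simpa [edist_dist, dist_eq_norm] using this
  have h3 : ‖∑ i ∈ Finset.range N, g (Γ (p i)) * (Γ (p (i + 1)) - Γ (p i)) - c * (Γ s' - Γ s)‖ ≤
      ε * (eVariationOn Γ (Icc s s')).toReal := by
    rw [← pN, ← p0, ← Finset.sum_range_sub fun i => Γ (p i), Finset.mul_sum, ← Finset.sum_sub_distrib,
      pN, p0]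
    refine (norm_sum_le _ _).trans (le_trans ?_ (mul_le_mul_of_nonneg_left h2 hε))
    rw [Finset.mul_sum]
    refine Finset.sum_le_sum fun i _ => ?_
    rw [← sub_mul, norm_mul]
    exact mul_le_mul_of_nonneg_right (hg _ (pm i)) (norm_nonneg _)
  rw [norm_sub_rev] at h1
  linarith [norm_sub_le_norm_sub_add_norm_sub I (∑ i ∈ Finset.range N,
    g (Γ (p i)) * (Γ (p (i + 1)) - Γ (p i))) (c * (Γ s' - Γ s))]

theorem result (Γ γ : ℝ → ℂ) (a b c d : ℝ) (hΓ : Admissible Γ a b) (hcd : c < d)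
    (hγ : ContinuousOn γ (Icc c d)) (hi : InjOn γ (Icc c d)) (hs : γ '' Icc c d ⊆ Γ '' Icc a b) :
    Admissible γ c d ∧ ∀ f g : ℂ → ℂ, ContinuousOn f (Γ '' Icc a b) →
      ContinuousOn g (Γ '' Icc a b) → DerivAlong Γ a b f g → DerivAlong γ c d f g := by
  obtain ⟨hab, hΓ, hV, -⟩ := hΓ
  refine ⟨⟨hcd, hγ, ?_, fun u v hu huv hv => ⟨u, ⟨le_rfl, huv.le⟩, v, ⟨huv.le, le_rfl⟩, fun e =>
    huv.ne (hi ⟨hu, huv.le.trans hv⟩ ⟨hu.trans huv.le, hv⟩ e)⟩⟩, ?_⟩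
  · refine ne_top_of_le_ne_top (b := .ofReal (1 * (eVariationOn Γ (Icc a b)).toReal))
      ENNReal.ofReal_ne_top (iSup_le fun ⟨n, t, ht, ht'⟩ => ?_)
    have := key hΓ hV hγ hi hs hab.le (n := n) (fun i j h _ => ht h) (fun i _ => ht' i)
      (fun _ z => z) (fun _ => continuousOn_id) zero_le_one one_pos fun k _ s hs s' hs' h _ _ => by
        simpa [dist_eq_norm] using (hV.mono (Icc_subset_Icc hs.1 hs'.2)).dist_le
          (right_mem_Icc.2 h) (left_mem_Icc.2 h)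
    refine le_trans (le_of_eq ?_) (ENNReal.ofReal_le_ofReal this)
    simp [ENNReal.ofReal_sum_of_nonneg, edist_dist, dist_eq_norm]
  intro f g hf hg h u v hu huv hv e he
  set L := (eVariationOn Γ (Icc a b)).toReal
  have hL : 0 ≤ L := ENNReal.toReal_nonneg
  obtain ⟨δ₁, hδ₁, h1⟩ := Metric.uniformContinuousOn_iff.1
    ((isCompact_Icc.image_of_continuousOn hΓ).uniformContinuousOn_of_continuous hg) (e / (L + 1))
    (by positivity)
  obtain ⟨δ, hδ, h2⟩ := unif hγ (half_pos hδ₁)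
  obtain ⟨ρ, hρ, h3⟩ := unif hΓ (half_pos hδ₁)
  refine ⟨δ, hδ, fun n t ξ t0 tn ht => ?_⟩
  have hm (i j) (hij : i ≤ j) (hj : j ≤ n) : t i ≤ t j := by
    induction hij with
    | refl => exact le_rfl
    | step _ ih => exact (ih (by omega)).trans ((ht _ hj).1.trans (ht _ hj).2.1)
  have ht' (i) (hi : i ≤ n) : t i ∈ Icc c d :=
    ⟨hu.trans (t0 ▸ hm 0 i i.zero_le hi), (tn ▸ hm i n hi le_rfl).trans hv⟩
  have := key hΓ hV hγ hi hs hab.le hm ht' (fun k z => f z - g (γ (ξ k)) * z)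
    (fun k => hf.sub (by fun_prop)) (ε := e / (L + 1)) (by positivity) hρ (by
      rintro k hk s hs1 s' hs2 hss hr ⟨x, hx, ex⟩
      rcases hss.eq_or_lt with rfl | hlt
      · simp
      have hξ : ξ k ∈ Icc c d := ⟨(ht' k hk.le).1.trans (ht k hk).1, (ht k hk).2.1.trans (ht' _ hk).2⟩
      refine le_trans (le_of_eq (by congr 1; ring)) (est (c := g (γ (ξ k))) hss (by positivity)
        (hV.mono (Icc_subset_Icc hs1.1 hs2.2)) (h s s' hs1.1 hlt hs2.2) fun y hy => ?_)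
      have hy' : y ∈ Icc a b := ⟨hs1.1.trans hy.1, hy.2.trans hs2.2⟩
      rw [← dist_eq_norm]
      refine (h1 _ (mem_image_of_mem _ hy') _ (hs (mem_image_of_mem _ hξ)) ?_).le
      have e1 := h3 y hy' s hs1 (abs_lt.2 ⟨by linarith [hy.1], by linarith [hy.2]⟩)
      have e2 := h2 x ⟨(ht' k hk.le).1.trans hx.1, hx.2.trans (ht' _ hk).2⟩ _ hξ
        (abs_lt.2 ⟨by linarith [hx.1, ht k hk], by linarith [hx.2, ht k hk]⟩)
      rw [dist_eq_norm]
      linarith [norm_sub_le_norm_sub_add_norm_sub (Γ y) (Γ s) (γ (ξ k)), ex ▸ e2])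
  rw [← tn, ← t0, ← Finset.sum_range_sub fun i => f (γ (t i)), ← Finset.sum_sub_distrib]
  refine ((norm_sum_le _ _).trans (le_trans (le_of_eq (Finset.sum_congr rfl fun k _ => ?_))
    this)).trans_lt ?_
  · rw [norm_sub_rev]
    congr 1
    ring
  · rw [div_mul_eq_mul_div, div_lt_iff₀ (by positivity)]
    nlinarith

end Pool.Agent.Results.MP_78c6b8_an.Contains
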